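import Pool.Agent.H58.FN.Targets

/-!
# Four monopoles around a hub are impossible (row R5A3 of fnc_modules)
-/

set_option autoImplicit false

open Pool.Agent.H59 Pool.Agent.H48.FR Pool.Agent.H58.FL Pool.Agent.H30.FA Pool.Agent.H58.FM
open Pool.Agent.H58.FN

namespace Pool.Agent.H54.FN

theorem r5a3_comp {E : Type} [NormedAddCommGroup E] [InnerProductSpace ℂ E] {n m : ℕ}
    (p : Fin n → E) (hp : Cl3 p) (s : Fin m → Fin n) : Cl3 (fun i => p (s i)) :=
  ⟨fun i => hp.1 (s i), fun i j => hp.2 (s i) (s j)⟩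

theorem r5a3_mul {E : Type} [NormedAddCommGroup E] [InnerProductSpace ℂ E] (a b c d : E) :
    2 * Real.pi * mn a b c d = ar b c d - ar a c d + ar a b d - ar a b c := by
  unfold mn
  rw [mul_div_cancel₀]
  exact (mul_pos two_pos Real.pi_pos).ne'

theorem pf_R5A3 (hW4A : T_W4A) (hMN3 : T_MN3) : T_R5A3 := by
  intro E _ _ p hp h123 h124 h134 h234
  obtain ⟨hA, hB, hC⟩ := hMN3 E
  have hpi := Real.pi_pos
  -- the triples
  have tri : ∀ i j k : Fin 5, ar (p i) (p k) (p j) = -ar (p i) (p j) (p k) ∧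
      |ar (p i) (p j) (p k)| < 11 * Real.pi / 14 := by
    intro i j k
    have h := hA (fun l => p (![i, j, k] l)) (r5a3_comp p hp ![i, j, k])
    exact ⟨h.2.1, h.2.2.2.2.2⟩
  -- the quadruples
  have quad : ∀ i j k l : Fin 5, mn (p i) (p j) (p k) (p l) = 0 ∨
      mn (p i) (p j) (p k) (p l) = 1 ∨ mn (p i) (p j) (p k) (p l) = -1 := by
    intro i j k l
    exact (hB (fun a => p (![i, j, k, l] a)) (r5a3_comp p hp ![i, j, k, l])).1
  have W : ∀ i j k l : Fin 5, ar (p 0) (p i) (p j) + ar (p 0) (p j) (p k) +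
      ar (p 0) (p k) (p l) + ar (p 0) (p l) (p i) < 2 * Real.pi := fun i j k l =>
    hW4A E (p 0) (p i) (p j) (p k) (p l) (hp.1 0) (hp.1 i) (hp.1 j) (hp.1 k) (hp.1 l)
      (hp.2 0 i) (hp.2 0 j) (hp.2 0 k) (hp.2 0 l) (hp.2 i j) (hp.2 j k) (hp.2 k l) (hp.2 l i)
  have a21 := (tri 0 1 2).1
  have a31 := (tri 0 1 3).1
  have a41 := (tri 0 1 4).1
  have a32 := (tri 0 2 3).1
  have a42 := (tri 0 2 4).1
  have a43 := (tri 0 3 4).1
  have w1 := W 1 2 3 4
  have w2 := W 4 3 2 1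
  have w3 := W 1 2 4 3
  have w4 := W 3 4 2 1
  have w5 := W 1 3 2 4
  have w6 := W 4 2 3 1
  have b123 := abs_lt.1 (tri 1 2 3).2
  have b124 := abs_lt.1 (tri 1 2 4).2
  have b134 := abs_lt.1 (tri 1 3 4).2
  have e123 := r5a3_mul (p 0) (p 1) (p 2) (p 3)
  have e124 := r5a3_mul (p 0) (p 1) (p 2) (p 4)
  have e134 := r5a3_mul (p 0) (p 1) (p 3) (p 4)
  have hc := hC (p 0) (p 1) (p 2) (p 3) (p 4)
  rw [a21] at w2 w4
  rw [a31] at w3 w6
  rw [a32] at w2 w5
  rw [a41] at w1 w5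
  rw [a42] at w4 w6
  rw [a43] at w2 w3
  clear W tri hA hB hC hW4A hMN3 a21 a31 a41 a32 a42 a43
  rcases quad 0 1 2 3 with h | h | h
  · exact h123 h
  all_goals
    rw [h] at e123 hc
    rcases quad 0 1 2 4 with h' | h' | h'
    · exact h124 h'
    all_goals
      rw [h'] at e124 hc
      rcases quad 0 1 3 4 with h'' | h'' | h''
      · exact h134 h''
      all_goals
        rw [h''] at e134 hc
        first
        | linarith
        | (rcases quad 0 2 3 4 with k | k | k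
           · exact h234 k
           all_goals
             rw [k] at hc
             rcases quad 1 2 3 4 with k' | k' | k' <;> rw [k'] at hc <;> linarith)

end Pool.Agent.H54.FN
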